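import Pool.Agent.Y354.DC3.Stm3
import Pool.Agent.Y737.DC3.Rg

/-!
# Job DC4-RG (helper354): the recursion for regular weights, constant `5/2`
-/

set_option autoImplicit false

open Finset
open scoped Classical

namespace Pool.Agent.Y25.DC4

open Pool.Agent.Y354.DC3 Pool.Agent.Y737.DC3.Rg

theorem s_rg2 : S_J1 → S_J2 → S_J4c → S_J5 → S_CH2 → S_RG2 := by
  intro h1 h2 h4 h5 hC
  obtain ⟨A, hA⟩ := hC
  refine ⟨A, ?_⟩
  intro V _ μ N hN hμ t ht a ha hL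
  refine hA a ha (P μ N) (Y μ N) t (P_small hμ (by omega)) (P_small hμ (by omega))
    (P_small hμ (by omega)) (fun k hk => P_pos hμ hL hk) (P_zero hμ hL) (P_nonneg hμ.1)
    (Y_nonneg hμ.1) (h1 V μ N hN hμ.1) (h2 V μ N hN hμ) fun k => ?_
  have g4 := h4 V μ N hN hμ t ht k
  have g5 := h5 V μ N hN hμ.1 k
  have g6 := P_nonneg (N := N) hμ.1 (k + 1)
  have g7 := mul_le_mul_of_nonneg_right g4 g6
  have g8 : 5 / 6 * ((k : ℝ) + 1) * Y μ N k ^ 2 ≤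
      5 / 6 * ((k : ℝ) + 1) * (D μ N k * P μ N (k + 1)) :=
    mul_le_mul_of_nonneg_left g5 (by positivity)
  have g9 : 4 / 3 * (P μ N (k + 2) - P μ N (k + 3)) * P μ N (k + 1) / ((k : ℝ) + 2) =
      4 / 3 * (P μ N (k + 2) - P μ N (k + 3)) / ((k : ℝ) + 2) * P μ N (k + 1) := by
    ring
  rw [g9]
  calc 1 / 3 * Y μ N (k + 1) * P μ N (k + 1) +
        4 / 3 * (P μ N (k + 2) - P μ N (k + 3)) / ((k : ℝ) + 2) * P μ N (k + 1) +
        5 / 6 * ((k : ℝ) + 1) * Y μ N k ^ 2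
      ≤ 1 / 3 * Y μ N (k + 1) * P μ N (k + 1) +
        4 / 3 * (P μ N (k + 2) - P μ N (k + 3)) / ((k : ℝ) + 2) * P μ N (k + 1) +
        5 / 6 * ((k : ℝ) + 1) * (D μ N k * P μ N (k + 1)) := by linarith
    _ = (1 / 3 * Y μ N (k + 1) + 4 / 3 * (P μ N (k + 2) - P μ N (k + 3)) / ((k : ℝ) + 2) +
        5 / 6 * ((k : ℝ) + 1) * D μ N k) * P μ N (k + 1) := by ring
    _ ≤ ((k : ℝ) + 1) * t * P μ N (k + 1) * P μ N (k + 1) := g7
    _ = ((k : ℝ) + 1) * t * P μ N (k + 1) ^ 2 := by ring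

end Pool.Agent.Y25.DC4
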